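import Pool.Agent.Helper59.MB.Goals1

/-!
# Project MB (MP_49a1ce_an), packet CYL
-/

set_option autoImplicit false

open MeasureTheory Filter Topology Finset

namespace Pool.Agent.Helper92.MB

open Pool.Agent.Helper59.MB

/-- counting integers in a residue class -/
theorem card_mod (P N : ℕ) (hP : 0 < P) (v : ℤ) :
    (((Icc 1 N).filter (fun n : ℕ => (v + (n : ℤ)) % P = 0)).card : ℝ) ≤ N / P + 1 := by
  have hP' : (0 : ℤ) < P := by exact_mod_cast hP
  have h1 : ((Icc 1 N).filter (fun n : ℕ => (v + (n : ℤ)) % P = 0)).card ≤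
      ((Ioc (0 : ℤ) N).filter (fun x => x ≡ -v [ZMOD P])).card := by
    refine Finset.card_le_card_of_injOn (fun n : ℕ => (n : ℤ)) ?_ ?_
    · intro n hn
      simp only [coe_filter, mem_Icc, Set.mem_ofPred_eq] at hn
      simp only [coe_filter, mem_Ioc, Set.mem_ofPred_eq]
      refine ⟨⟨by omega, by omega⟩, ?_⟩
      have : (P : ℤ) ∣ v + n := Int.dvd_of_emod_eq_zero hn.2
      refine (Int.modEq_iff_dvd.mpr ?_)
      have h2 : -v - (n : ℤ) = -(v + n) := by ring
      rw [h2]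
      exact (dvd_neg).mpr this
    · intro a _ b _ hab
      simpa using hab
  have h2 := Int.Ioc_filter_modEq_card (0 : ℤ) (N : ℤ) hP' (-v)
  have h3 : (((Ioc (0 : ℤ) N).filter (fun x => x ≡ -v [ZMOD P])).card : ℝ) ≤ N / P + 1 := by
    have h4 : ((((Ioc (0 : ℤ) N).filter (fun x => x ≡ -v [ZMOD P])).card : ℤ) : ℝ) ≤ N / P + 1 := by
      rw [h2]
      have hPR : (0 : ℝ) < P := by exact_mod_cast hP
      have e1 : ((⌊(((N : ℤ) - (-v) : ℤ) : ℚ) / (P : ℤ)⌋ : ℤ) : ℝ) ≤ ((N : ℝ) + v) / P := by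
        have := Int.floor_le ((((N : ℤ) - (-v) : ℤ) : ℚ) / (P : ℤ))
        have h5 : (((⌊(((N : ℤ) - (-v) : ℤ) : ℚ) / (P : ℤ)⌋ : ℤ) : ℚ) : ℝ) ≤
            (((((N : ℤ) - (-v) : ℤ) : ℚ) / (P : ℤ) : ℚ) : ℝ) := by exact_mod_cast this
        push_cast at h5 ⊢
        simpa using h5
      have e2 : (v : ℝ) / P - 1 < ((⌊(((0 : ℤ) - (-v) : ℤ) : ℚ) / (P : ℤ)⌋ : ℤ) : ℝ) := by
        have := Int.sub_one_lt_floor ((((0 : ℤ) - (-v) : ℤ) : ℚ) / (P : ℤ))
        have h5 : ((((((0 : ℤ) - (-v) : ℤ) : ℚ) / (P : ℤ) - 1 : ℚ)) : ℝ) <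
            (((⌊(((0 : ℤ) - (-v) : ℤ) : ℚ) / (P : ℤ)⌋ : ℤ) : ℚ) : ℝ) := by exact_mod_cast this
        push_cast at h5 ⊢
        simpa using h5
      push_cast at e1 e2 ⊢
      rw [max_le_iff]
      constructor
      · have : ((N : ℝ) + v) / P = N / P + v / P := by ring
        rw [this] at e1
        linarith
      · positivity
    exact_mod_cast h4
  exact (by exact_mod_cast h1 : (((Icc 1 N).filter (fun n : ℕ => (v + (n : ℤ)) % P = 0)).card : ℝ) ≤
    (((Ioc (0 : ℤ) N).filter (fun x => x ≡ -v [ZMOD P])).card : ℝ)).trans h3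

theorem iter_fst (x : Bas) (n : ℕ) : ((⇑TB)^[n] x).1 = fun i => x.1 (i + n) := by
  induction n generalizing x with
  | zero => simp
  | succ n ih =>
    rw [Function.iterate_succ_apply, ih]
    funext i
    show x.1 (i + n + 1) = x.1 (i + ((n + 1 : ℕ) : ℤ))
    have e : i + (n : ℤ) + 1 = i + ((n + 1 : ℕ) : ℤ) := by push_cast; ring
    rw [e]

theorem iter_snd (x : Bas) (n : ℕ) : ((⇑TB)^[n] x).2 = x.2 + ((n : ℤ) : ℤ_[2]) := by
  induction n generalizing x with
  | zero => simp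
  | succ n ih =>
    rw [Function.iterate_succ_apply, ih]
    show x.2 + 1 + ((n : ℤ) : ℤ_[2]) = _
    push_cast
    ring

theorem t_CYL (hPHS : S_PHS) : S_CYL := by
  classical
  obtain ⟨h1, h2, h3, -, -, -⟩ := hPHS
  intro s hs c l hc hcl x N
  set L := c.1 with hL
  have hP : 0 < P s l := by unfold P; positivity
  -- pointwise bound
  have key : ∀ z : Bas, |Fc s c z - Th s l z| ≤
      if (ph (s l) z.2 < L ∨ P s l ≤ ph (s l) z.2 + L) then 1 else 0 := by
    intro z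
    have hρ : ph (s l) z.2 < P s l := h1 _ _
    split_ifs with hb
    · have hF : Fc s c z = 0 ∨ Fc s c z = 1 := by
        unfold Fc; split_ifs <;> simp
      have hT : Th s l z = 0 ∨ Th s l z = 1 := by
        unfold Th ev; split_ifs <;> simp
      rcases hF with hF | hF <;> rcases hT with hT | hT <;> rw [hF, hT] <;> norm_num
    · rw [not_or, not_lt, not_le] at hb
      have : Fc s c z = Th s l z := by
        unfold Fc Th ev hit
        rw [hc, Nat.mod_eq_of_lt hρ]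
        have e1 : ph (s l) z.2 % P s c.1 = ph (s c.1) z.2 := by
          unfold P
          exact h3 _ _ _ (hs.monotone hcl)
        rw [e1]
        have e2 : ∀ a : ℕ, fromZ (-(ph (s l) z.2 : ℤ)) z.1 (ph (s l) z.2 - c.1 + a) =
            z.1 ((a : ℤ) - c.1) := by
          intro a
          unfold fromZ
          have e0 : -(ph (s l) z.2 : ℤ) + ((ph (s l) z.2 - c.1 + a : ℕ) : ℤ) = (a : ℤ) - c.1 := by
            rw [Nat.cast_add, Nat.cast_sub hb.1]
            ring
          rw [e0]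
        simp only [e2]
        have e3 : c.1 ≤ l ∧ c.1 ≤ ph (s l) z.2 ∧ ph (s l) z.2 + c.1 < P s l ∧
            (ph (s c.1) z.2 = c.2.1 ∧ ∀ a < 2 * c.1 + 1, ∀ j < c.1,
              (z.1 ((a : ℤ) - c.1) j = true ↔ (a, j) ∈ c.2.2)) ↔
            (ph (s c.1) z.2 = c.2.1 ∧ ∀ a < 2 * c.1 + 1, ∀ j < c.1,
              (z.1 ((a : ℤ) - c.1) j = true ↔ (a, j) ∈ c.2.2)) :=
          ⟨fun h => h.2.2.2, fun h => ⟨hcl, hb.1, hb.2, h⟩⟩
        simp only [e3]
      rw [this, sub_self, abs_zero]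
  -- the bad residues
  set S : Finset ℕ := (range (P s l)).filter (fun r => r < L ∨ P s l ≤ r + L) with hS
  have hSc : S.card ≤ 2 * L := by
    have hsub : S ⊆ range L ∪ Ico (P s l - L) (P s l) := by
      intro r hr
      simp only [hS, mem_filter, mem_range, mem_union, mem_Ico] at hr ⊢
      omega
    refine (Finset.card_le_card hsub).trans ((Finset.card_union_le _ _).trans ?_)
    rw [card_range, Nat.card_Ico]
    omega
  have hcount : ∀ r ∈ S, (((Icc 1 N).filter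
      (fun n : ℕ => ph (s l) (x.2 + ((n : ℤ) : ℤ_[2])) = r)).card : ℝ) ≤ N / P s l + 1 := by
    intro r hr
    refine le_trans ?_ (card_mod (P s l) N hP ((ph (s l) x.2 : ℤ) - r))
    have hsub : (Icc 1 N).filter (fun n : ℕ => ph (s l) (x.2 + ((n : ℤ) : ℤ_[2])) = r) ⊆
        (Icc 1 N).filter (fun n : ℕ => (((ph (s l) x.2 : ℤ) - r) + (n : ℤ)) % (P s l : ℕ) = 0) := by
      intro n hn
      simp only [mem_filter] at hn ⊢
      refine ⟨hn.1, ?_⟩
      have h5 := h2 (s l) x.2 n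
      rw [hn.2] at h5
      have h6 : ((P s l : ℕ) : ℤ) = 2 ^ s l := by unfold P; push_cast; rfl
      rw [h6]
      have h7 : (ph (s l) x.2 : ℤ) - r + n = ((ph (s l) x.2 : ℤ) + n) - r := by ring
      rw [h7, h5]
      exact Int.emod_eq_zero_of_dvd (Int.dvd_self_sub_of_emod_eq rfl)
    exact_mod_cast Finset.card_le_card hsub
  calc ∑ n ∈ Icc 1 N, |Fc s c ((⇑TB)^[n] x) - Th s l ((⇑TB)^[n] x)|
      ≤ ∑ n ∈ Icc 1 N, ∑ r ∈ S, if ph (s l) (x.2 + ((n : ℤ) : ℤ_[2])) = r then (1 : ℝ) else 0 := by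
        refine Finset.sum_le_sum fun n _ => (key _).trans ?_
        rw [iter_snd, Finset.sum_ite_eq]
        have hlt : ph (s l) (x.2 + ((n : ℤ) : ℤ_[2])) < P s l := h1 _ _
        by_cases hb : ph (s l) (x.2 + ((n : ℤ) : ℤ_[2])) < L ∨
            P s l ≤ ph (s l) (x.2 + ((n : ℤ) : ℤ_[2])) + L
        · rw [if_pos hb, if_pos]
          simp only [hS, mem_filter, mem_range]
          exact ⟨hlt, hb⟩
        · rw [if_neg hb]
          split_ifs <;> norm_num
    _ = ∑ r ∈ S, (((Icc 1 N).filter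
          (fun n : ℕ => ph (s l) (x.2 + ((n : ℤ) : ℤ_[2])) = r)).card : ℝ) := by
        rw [Finset.sum_comm]
        refine Finset.sum_congr rfl fun r _ => ?_
        rw [Finset.sum_boole]
    _ ≤ ∑ r ∈ S, ((N : ℝ) / P s l + 1) := Finset.sum_le_sum hcount
    _ = S.card * ((N : ℝ) / P s l + 1) := by rw [Finset.sum_const, nsmul_eq_mul]
    _ ≤ 2 * L * ((N : ℝ) / P s l + 1) := by
        refine mul_le_mul_of_nonneg_right ?_ (by positivity)
        exact_mod_cast hSc

end Pool.Agent.Helper92.MB
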