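import Pool.Agent.Helper59.MB.Goals1
import Pool.Agent.Helper59.MB.Goals3

/-!
# Project MB (MP_49a1ce_an), packet IPR
-/

set_option autoImplicit false

open MeasureTheory Filter Topology

namespace Pool.Agent.Helper92.MB

open Pool.Agent.Helper59.MB

theorem ae_prod_fst {Y X : Type} [MeasurableSpace Y] [MeasurableSpace X] {μ : Measure Y} {h : Measure X}
    [SFinite μ] [SFinite h] {p : Y → Prop} (hp : ∀ᵐ y ∂μ, p y) : ∀ᵐ z ∂(μ.prod h), p z.1 :=
  Measure.quasiMeasurePreserving_fst.ae hp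

theorem t_IPR (hHAR : S_HAR) : S_IPR := by
  intro Y Z _ _ T μ S ν hμ hν hI
  have hH : IsProbabilityMeasure haar2 := hHAR.1
  obtain ⟨φ, ψ, h1, h2, h3, h4, h5⟩ := hI
  refine ⟨Prod.map φ id, Prod.map ψ id, h1.prod (MeasurePreserving.id haar2),
    h2.prod (MeasurePreserving.id haar2), ?_, ?_, ?_⟩
  · filter_upwards [ae_prod_fst (h := haar2) h3] with z hz
    exact Prod.ext hz rfl
  · filter_upwards [ae_prod_fst (h := haar2) h4] with z hz
    exact Prod.ext hz rfl
  · filter_upwards [ae_prod_fst (h := haar2) h5] with z hz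
    exact Prod.ext hz rfl

end Pool.Agent.Helper92.MB
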